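import Pool.Graph.R_seed8.Results.MP_5d015b_lc.PinningInP
import Pool.Graph.R_pool_sql_team_seeded_707910d6.T2H90.CJ.Main

/-!
# The globally rigid pinning problem is solvable in polynomial time (unconditional)

The library file `PinningInP` for this question treats the combinatorial form of global rigidity, and
the geometric form under the theorem of Connelly, Jackson and Jordán as a hypothesis. This theorem is
proved in `Pool.Agent.T2H90.CJ.Main` (another run of the library). Here they are put together: the
question is answered for global rigidity as it is defined in the problem, by generic realizations.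

`NPC.PolyTime f`: the function `f` on bit strings is computed by a Turing machine in polynomial time
(Mathlib's `Turing.TM2ComputableInPolyTime`).  `NPC.bits`: the standard code of structured data as a
bit string; numbers are written in binary.  `adjMatrix G`: the adjacency matrix of a graph `G` on
`{0, ..., n-1}`, as the list of its rows, which are lists of Booleans.
-/

set_option autoImplicit false

namespace Pool.Agent.Results.MP_5d015b_lc.PinningUnconditional

open Pool.Agent.NPC Pool.Agent.NPC.R671 Pool.Agent.H632R2.Cogirth

/-- A realization in the plane is generic if its `2|V|` coordinates are algebraically independent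
over `ℚ`. -/
def GenericRealization {n : ℕ} (p : Fin n → EuclideanSpace ℝ (Fin 2)) : Prop :=
  AlgebraicIndependent ℚ (fun c : Fin n × Fin 2 => p c.1 c.2)

/-- `G` is globally rigid in the plane: for every generic realization `p` and every realization `q`
such that all edges have the same lengths in `p` and in `q`, all pairs of vertices have the same
distances in `p` and in `q`. -/
def GloballyRigid {n : ℕ} (G : SimpleGraph (Fin n)) : Prop :=
  ∀ p : Fin n → EuclideanSpace ℝ (Fin 2), GenericRealization p →
    ∀ q : Fin n → EuclideanSpace ℝ (Fin 2),
      (∀ u v, G.Adj u v → dist (p u) (p v) = dist (q u) (q v)) →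
      ∀ u v, dist (p u) (p v) = dist (q u) (q v)

/-- `K(P)`: the complete graph on `P`, as a graph on `V`. -/
def K {n : ℕ} (P : Finset (Fin n)) : SimpleGraph (Fin n) :=
  SimpleGraph.fromRel fun u v => u ∈ P ∧ v ∈ P

theorem gr_iff {n : ℕ} (G : SimpleGraph (Fin n)) :
    PinningInP.GloballyRigid G ↔ TH694.GP.GloballyRigid G := Iff.rfl

/-- The theorem of Connelly, Jackson and Jordán. -/
theorem cjj (n : ℕ) (hn : 4 ≤ n) (G : SimpleGraph (Fin n)) :
    PinningInP.GloballyRigid G ↔ PinningInP.ThreeConnected G ∧ PinningInP.RedundantlyRigid G := by
  rw [gr_iff, Pool.Agent.T2H90.CJ.connelly_jackson_jordan G (by rw [Fintype.card_fin]; exact hn)]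
  unfold PinningInP.ThreeConnected PinningInP.RedundantlyRigid
  constructor
  · rintro ⟨h1, h2⟩
    exact ⟨⟨hn, h1⟩, h2⟩
  · rintro ⟨⟨-, h1⟩, h2⟩
    exact ⟨h1, h2⟩

open Classical in
/-- **The globally rigid pinning problem is solvable in polynomial time.**
(1) Some polynomial-time algorithm decides, given a graph `G` and a number `k`, whether there is a
set `P` of at most `k` vertices such that `G + K(P)` is globally rigid in the plane.
(2) Some polynomial-time algorithm outputs, given a graph `G`, (the characteristic vector of) a set
`P` of minimum size such that `G + K(P)` is globally rigid in the plane. -/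
theorem result :
    (∃ f : List Bool → List Bool, PolyTime f ∧
      ∀ (n : ℕ) (G : SimpleGraph (Fin n)) (k : ℕ),
        f (bits (adjMatrix G, k)) =
          bits (decide (∃ P : Finset (Fin n), P.card ≤ k ∧ GloballyRigid (G ⊔ K P)))) ∧
    (∃ g : List Bool → List Bool, PolyTime g ∧
      ∀ (n : ℕ) (G : SimpleGraph (Fin n)), ∃ P : Finset (Fin n), GloballyRigid (G ⊔ K P) ∧
        (∀ P' : Finset (Fin n), GloballyRigid (G ⊔ K P') → P.card ≤ P'.card) ∧
        g (bits (adjMatrix G)) = bits (List.ofFn fun i => decide (i ∈ P))) :=
  PinningInP.result.2 cjj

end Pool.Agent.Results.MP_5d015b_lc.PinningUnconditional
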